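import Mathlib
import Pool.Agent.Helper467.FP.Defs
import Pool.Agent.H710R2.DP.VTasks

/-!
ROOM GEN (MP_c8a987_an, S04147).  Interface of the blocks.

Everything in blocks 2, 3, 4 is stated for an abstract tracial von Neumann algebra `(A, τ)`:
`[CStarAlgebra A] (τ : A →ₗ[ℂ] ℂ) (h : TW τ)` of `Pool.Agent.Helper467.FP.Defs`
(C*-algebra with a faithful tracial state whose unit ball is complete in the 2-norm).
-/

set_option autoImplicit false

open scoped ComplexOrder Topology BoundedContinuousFunction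
open Filter

noncomputable section

namespace Pool.Agent.H735G

open Pool.Agent.H467F

/-- A tracial state, not necessarily faithful. -/
structure TS {A : Type} [CStarAlgebra A] (φ : A →ₗ[ℂ] ℂ) : Prop where
  one : φ 1 = 1
  comm : ∀ x y, φ (x * y) = φ (y * x)
  nonneg : ∀ x, 0 ≤ φ (star x * x)
  conj : ∀ x, φ (star x) = star (φ x)

/-- `A` is separable in the 2-norm. -/
def SepT {A : Type} [CStarAlgebra A] (τ : A →ₗ[ℂ] ℂ) : Prop :=
  ∃ s : ℕ → A, ∀ x : A, ∀ ε : ℝ, 0 < ε → ∃ n, n2 τ (x - s n) < ε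

/-- `A` has no abelian projection: every nonzero corner is noncommutative. -/
def NoAbA (A : Type) [CStarAlgebra A] : Prop :=
  ∀ e : A, star e = e → e * e = e → e ≠ 0 →
    ∃ x y : A, (e * x * e) * (e * y * e) ≠ (e * y * e) * (e * x * e)

/-- The subset `s` generates `A` (2-norm closure of the star algebra generated by `s`). -/
def GenT {A : Type} [CStarAlgebra A] (τ : A →ₗ[ℂ] ℂ) (s : Set A) : Prop :=
  ∀ x : A, x ∈ Cl τ (StarAlgebra.adjoin ℂ s : Set A)

/-- The bounded families `I → A` (`I` discrete) form a C*-algebra. -/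
instance cstarSeq {I : Type} [TopologicalSpace I] {A : Type} [CStarAlgebra A] :
    CStarAlgebra (I →ᵇ A) where

/-- The constant family of a unitary. -/
def cu {I : Type} [TopologicalSpace I] {A : Type} [CStarAlgebra A] (u : unitary A) :
    unitary (I →ᵇ A) :=
  ⟨BoundedContinuousFunction.const I (u : A), by
    rw [Unitary.mem_iff]
    constructor
    · ext i
      exact Unitary.coe_star_mul_self u
    · ext i
      exact Unitary.coe_mul_star_self u⟩

/-- THE FLOW THEOREM (note 818; owners helper581, helper667). -/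
def FlowThm : Prop :=
  ∀ ε : ℝ, 0 < ε → ∃ g : FreeGroup (Fin 3), ∀ (A : Type) [CStarAlgebra A] (φ : A →ₗ[ℂ] ℂ), TS φ →
    ∀ π : FreeGroup (Fin 4) →* unitary A, (∀ w, φ (π w : A) = if w = 1 then 1 else 0) →
    ∃ U' : unitary A, n2 φ ((U' : A) - (π (FreeGroup.of 2) : A)) ≤ ε ∧
      n2 φ (((FreeGroup.lift ![π (FreeGroup.of 0), π (FreeGroup.of 1), U'] g : unitary A) : A) -
        (π (FreeGroup.of 3) : A)) ≤ ε

/-- Four unitaries `a, b, c, d` of the bounded families in `N` (`N` a star subalgebra of `A`), such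
that for ALL unitaries `u, v` of `A` the four unitaries `a, b, c u, d v` have the law of the
canonical generators of the free group, with respect to a tracial state `φ` of the algebra of bounded
families of elements of `A` which extends `τ` and dominates the infimum of `τ` over the indices.
(`I = ℕ` and `φ = lim τ` along an ultrafilter, or `I` = pairs (n, random sample) and
`φ = lim E τ` are both fine.) -/
structure FreeSys {A : Type} [CStarAlgebra A] (τ : A →ₗ[ℂ] ℂ) (N : StarSubalgebra ℂ A) where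
  /-- the index set -/
  I : Type
  /-- its topology -/
  [top : TopologicalSpace I]
  [disc : DiscreteTopology I]
  /-- the tracial state -/
  φ : (I →ᵇ A) →ₗ[ℂ] ℂ
  ts : TS φ
  const : ∀ x : A, φ (BoundedContinuousFunction.const I x) = τ x
  loc : ∀ (x : I →ᵇ A) (δ : ℝ), (φ x).re < δ → ∃ i, (τ (x i)).re < δ
  /-- the four unitaries -/
  c : Fin 4 → unitary (I →ᵇ A)
  mem : ∀ k i, (c k : I →ᵇ A) i ∈ N
  free : ∀ (u v : unitary A) (w : FreeGroup (Fin 4)),
    φ ((FreeGroup.lift ![c 0, c 1, c 2 * cu u, c 3 * cu v] w : unitary (I →ᵇ A)) : I →ᵇ A) =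
      if w = 1 then 1 else 0

/-- BLOCK 2 (helper270, helper514): freeness. -/
def FreenessThm : Prop :=
  ∀ (A : Type) [CStarAlgebra A] (τ : A →ₗ[ℂ] ℂ), TW τ → SepT τ → NoAbA A →
    ∃ (N : StarSubalgebra ℂ A) (h₁ h₂ : A), star h₁ = h₁ ∧ star h₂ = h₂ ∧ h₁ ∈ N ∧ h₂ ∈ N ∧
      (∀ x ∈ N, x ∈ Cl τ (StarAlgebra.adjoin ℂ {h₁, h₂} : Set A)) ∧ Nonempty (FreeSys τ N)

/-- BLOCK 3 (helper569): density and Baire. -/
def DensityThm : Prop :=
  FlowThm → ∀ (A : Type) [CStarAlgebra A] (τ : A →ₗ[ℂ] ℂ), TW τ → SepT τ →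
    ∀ N : StarSubalgebra ℂ A, Nonempty (FreeSys τ N) →
      ∃ u : unitary A, GenT τ ((N : Set A) ∪ {(u : A)})

/-- BLOCK 4 (helper649, helper594): the matrix trick. -/
def OneGenThm : Prop :=
  (∀ (A : Type) [CStarAlgebra A] (τ : A →ₗ[ℂ] ℂ), TW τ → SepT τ → NoAbA A →
    ∃ y : Fin 4 → A, (∀ i, star (y i) = y i) ∧ GenT τ (Set.range y)) →
  ∀ (A : Type) [CStarAlgebra A] (τ : A →ₗ[ℂ] ℂ), TW τ → SepT τ → NoAbA A →
    ∃ T : A, GenT τ {T}

/-- The II_1 part, abstract form. -/
def II1A : Prop :=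
  ∀ (A : Type) [CStarAlgebra A] (τ : A →ₗ[ℂ] ℂ), TW τ → SepT τ → NoAbA A → ∃ T : A, GenT τ {T}

/-- The II_1 part, concrete form (this is what block 5 uses). -/
def II1Z : Prop :=
  ∀ (H : Type) [NormedAddCommGroup H] [InnerProductSpace ℂ H] [CompleteSpace H]
    [TopologicalSpace.SeparableSpace H] (M : VonNeumannAlgebra H), H710R2.DP.NoAb M 1 →
    (∃ t : Elt M → ℂ, IsFaithfulTrace t ∧ IsNormalPositive M t) →
    ∃ T : H →L[ℂ] H, (M : Set (H →L[ℂ] H)) =
      Set.centralizer (Set.centralizer ({T, star T} : Set (H →L[ℂ] H)))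

/-- TRANSFER (helper735). -/
def TransferThm : Prop := II1A → II1Z

/-- The frozen statement S04147. -/
def S04147Stmt : Prop :=
  ∀ (H : Type) [NormedAddCommGroup H] [InnerProductSpace ℂ H] [CompleteSpace H]
    [TopologicalSpace.SeparableSpace H] (M : VonNeumannAlgebra H),
    ∃ T : H →L[ℂ] H, (M : Set (H →L[ℂ] H)) =
      Set.centralizer (Set.centralizer ({T, star T} : Set (H →L[ℂ] H)))

/-- BLOCK 5 (helper518, helper917, helper360, helper710, helper467, helper421). -/
def ReductionThm : Prop := II1Z → S04147Stmt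

end Pool.Agent.H735G
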