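import Mathlib
import Pool.Agent.H735G.Defs

/-!
ROOM GEN (MP_c8a987_an, S04147).  Interface, VERSION 2 (approximate freeness, no bounded families).
`FreeSys`, `FreenessThm`, `DensityThm` of `Defs.lean` are replaced by `AF`, `FreenessThm2`,
`DensityThm2`; everything else is unchanged.
-/

set_option autoImplicit false

open scoped ComplexOrder Topology
open Filter

noncomputable section

namespace Pool.Agent.H735G

open Pool.Agent.H467F

/-- Approximate freeness over the base algebra `N`: for all unitaries `u, v` of `A` there are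
unitaries `a, b, c, d` in `N` such that `a, b, c u, d v` have approximately the law of free
generators. -/
def AF {A : Type} [CStarAlgebra A] (τ : A →ₗ[ℂ] ℂ) (N : StarSubalgebra ℂ A) : Prop :=
  ∀ (u v : unitary A) (S : Finset (FreeGroup (Fin 4))), (1 : FreeGroup (Fin 4)) ∉ S →
    ∀ δ : ℝ, 0 < δ → ∃ c : Fin 4 → unitary A, (∀ k, (c k : A) ∈ N) ∧
      ∀ w ∈ S, ‖τ ((FreeGroup.lift ![c 0, c 1, c 2 * u, c 3 * v] w : unitary A) : A)‖ ≤ δ

/-- BLOCK 2, version 2 (helper270, helper514, ...): freeness. -/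
def FreenessThm2 : Prop :=
  ∀ (A : Type) [CStarAlgebra A] (τ : A →ₗ[ℂ] ℂ), TW τ → SepT τ → NoAbA A →
    ∃ (N : StarSubalgebra ℂ A) (h₁ h₂ : A), star h₁ = h₁ ∧ star h₂ = h₂ ∧ h₁ ∈ N ∧ h₂ ∈ N ∧
      (∀ x ∈ N, x ∈ Cl τ (StarAlgebra.adjoin ℂ {h₁, h₂} : Set A)) ∧ AF τ N

/-- BLOCK 3, version 2 (helper569, helper328): density and Baire (with helper770's `transfer`). -/
def DensityThm2 : Prop :=
  FlowThm → ∀ (A : Type) [CStarAlgebra A] (τ : A →ₗ[ℂ] ℂ), TW τ → SepT τ →
    ∀ N : StarSubalgebra ℂ A, AF τ N → ∃ u : unitary A, GenT τ ((N : Set A) ∪ {(u : A)})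

end Pool.Agent.H735G
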