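import Mathlib
import Pool.Agent.H735G.Defs
import Pool.Agent.Helper467.FP.P_exists_linear
import Pool.Agent.Helper467.FP.P_tw_elt
import Pool.Agent.Helper278.Factor

/-! ROOM GEN: from the abstract II_1 statement to von Neumann algebras. -/

set_option autoImplicit false
set_option linter.unusedSectionVars false

open scoped ComplexOrder Topology InnerProductSpace
open Filter

noncomputable section

namespace Pool.Agent.H735G

open Pool.Agent.H467F

variable {H : Type} [NormedAddCommGroup H] [InnerProductSpace ℂ H] [CompleteSpace H]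

/-- the operator of an element -/
abbrev op {M : VonNeumannAlgebra H} (x : Elt M) : H →L[ℂ] H := (x : H →L[ℂ] H)

theorem op_mul {M : VonNeumannAlgebra H} (x y : Elt M) : op (x * y) = op x * op y := rfl
theorem op_sub {M : VonNeumannAlgebra H} (x y : Elt M) : op (x - y) = op x - op y := rfl
theorem op_star {M : VonNeumannAlgebra H} (x : Elt M) : op (star x) = star (op x) := rfl

/-- the 2-norm in terms of the vectors -/
theorem n2_vec (M : VonNeumannAlgebra H) (t : Elt M →ₗ[ℂ] ℂ) (ξ : ℕ → H)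
    (hξ : Summable (fun k => ‖ξ k‖ ^ 2))
    (ht : ∀ x : Elt M, t x = ∑' k, ⟪ξ k, (x : H →L[ℂ] H) (ξ k)⟫_ℂ) (x : Elt M) :
    n2 t x ^ 2 = ∑' k, ‖op x (ξ k)‖ ^ 2 := by
  have h1 : t (star x * x) = ((∑' k, ‖op x (ξ k)‖ ^ 2 : ℝ) : ℂ) := by
    rw [ht, Complex.ofReal_tsum]
    exact tsum_congr (fun k => twe_star (op x) (ξ k))
  have h2 : (t (star x * x)).re = ∑' k, ‖op x (ξ k)‖ ^ 2 := by rw [h1, Complex.ofReal_re]
  rw [n2, Real.sq_sqrt]
  · exact h2
  · rw [h2]; exact tsum_nonneg (fun k => by positivity)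

theorem vec_le (M : VonNeumannAlgebra H) (t : Elt M →ₗ[ℂ] ℂ) (ξ : ℕ → H)
    (hξ : Summable (fun k => ‖ξ k‖ ^ 2))
    (ht : ∀ x : Elt M, t x = ∑' k, ⟪ξ k, (x : H →L[ℂ] H) (ξ k)⟫_ℂ) (x : Elt M) (k : ℕ) :
    ‖op x (ξ k)‖ ≤ n2 t x := by
  have h1 := n2_vec M t ξ hξ ht x
  have h2 : ‖op x (ξ k)‖ ^ 2 ≤ ∑' k, ‖op x (ξ k)‖ ^ 2 :=
    (twe_summable ξ hξ (op x)).le_tsum k (fun j _ => by positivity)
  rw [← h1] at h2
  exact (pow_le_pow_iff_left₀ (norm_nonneg _) (n2_nonneg _ _) two_ne_zero).1 h2

/-- the vectors `m' ξ k` span a dense subspace -/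
theorem dense_span (M : VonNeumannAlgebra H) (t : Elt M →ₗ[ℂ] ℂ) (htr : IsFaithfulTrace (t : Elt M → ℂ))
    (ξ : ℕ → H) (hξ : Summable (fun k => ‖ξ k‖ ^ 2))
    (ht : ∀ x : Elt M, t x = ∑' k, ⟪ξ k, (x : H →L[ℂ] H) (ξ k)⟫_ℂ) :
    (Submodule.span ℂ {v : H | ∃ m ∈ M.commutant, ∃ k, v = m (ξ k)}).topologicalClosure = ⊤ := by
  classical
  set S : Set H := {v : H | ∃ m ∈ M.commutant, ∃ k, v = m (ξ k)} with hS
  set K : Submodule ℂ H := (Submodule.span ℂ S).topologicalClosure with hK
  have hKc : IsClosed (K : Set H) := Submodule.isClosed_topologicalClosure _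
  haveI : CompleteSpace K := hKc.completeSpace_coe
  have hSK : ∀ v ∈ S, v ∈ K := fun v hv =>
    Submodule.le_topologicalClosure _ (Submodule.subset_span hv)
  have hinv : ∀ s : H →L[ℂ] H, (∀ v ∈ S, s v ∈ K) → ∀ v ∈ K, s v ∈ K := by
    intro s hs
    have h1 : Submodule.span ℂ S ≤ K.comap (s : H →ₗ[ℂ] H) := by
      rw [Submodule.span_le]
      intro v hv
      exact hs v hv
    have h2 : IsClosed ((K.comap (s : H →ₗ[ℂ] H) : Submodule ℂ H) : Set H) :=
      hKc.preimage s.continuous
    exact fun v hv => Submodule.topologicalClosure_minimal _ h1 h2 hv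
  have hM' : ∀ s ∈ M.commutant, ∀ v ∈ K, s v ∈ K := by
    intro s hs
    apply hinv
    rintro v ⟨m, hm, k, rfl⟩
    exact hSK _ ⟨s * m, mul_mem hs hm, k, rfl⟩
  have hpM : K.starProjection ∈ M := by
    rw [← VonNeumannAlgebra.commutant_commutant M, VonNeumannAlgebra.mem_commutant_iff]
    intro s hs
    exact (Pool.Agent.Helper278.commute_starProjection K s (hM' s hs)
      (hM' (star s) (star_mem hs))).symm
  let p : Elt M := ⟨K.starProjection, hpM⟩
  have hξK : ∀ k, ξ k ∈ K := fun k => hSK _ ⟨1, one_mem _, k, rfl⟩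
  have h0 : t (star (1 - p) * (1 - p)) = 0 := by
    rw [ht]
    have : ∀ k, ⟪ξ k, ((star (1 - p) * (1 - p) : Elt M) : H →L[ℂ] H) (ξ k)⟫_ℂ = 0 := by
      intro k
      have h1 : ((star (1 - p) * (1 - p) : Elt M) : H →L[ℂ] H) (ξ k) =
        (star (1 - p) : H →L[ℂ] H) (ξ k - K.starProjection (ξ k)) := rfl
      rw [h1, Submodule.starProjection_eq_self_iff.mpr (hξK k), sub_self, map_zero, inner_zero_right]
    rw [tsum_congr this, tsum_zero]
  have h1 : (1 : Elt M) - p = 0 := htr.faithful _ h0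
  have h2 : K.starProjection = 1 := by
    have : (1 : Elt M) = p := sub_eq_zero.1 h1
    exact (congrArg (fun z : Elt M => (z : H →L[ℂ] H)) this).symm
  rw [eq_top_iff]
  intro v _
  have h3 : K.starProjection v = v := by rw [h2]; rfl
  rw [← h3]
  exact K.starProjection_apply_mem v

/-- `GenT` implies that the bicommutant is everything. -/
theorem bicomm_of_gen (M : VonNeumannAlgebra H) (t : Elt M →ₗ[ℂ] ℂ)
    (htr : IsFaithfulTrace (t : Elt M → ℂ)) (hn : IsNormalPositive M (t : Elt M → ℂ))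
    (T : Elt M) (hT : GenT t {T}) :
    (M : Set (H →L[ℂ] H)) =
      Set.centralizer (Set.centralizer ({op T, star (op T)} : Set (H →L[ℂ] H))) := by
  have hTW : TW t := tw_elt M t hn htr
  obtain ⟨ξ, hξ, ht⟩ := hn
  have hdense := dense_span M t htr ξ hξ ht
  apply Set.Subset.antisymm
  · intro x hx
    rw [Set.mem_centralizer_iff]
    intro e he
    rw [Set.mem_centralizer_iff] at he
    have he1 : op T * e = e * op T := he _ (by simp)
    have he2 : star (op T) * e = e * star (op T) := he _ (by simp)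
    -- e commutes with the star algebra generated by T
    have hcomm2 : ∀ y ∈ StarAlgebra.adjoin ℂ ({T} : Set (Elt M)),
        e * op y = op y * e ∧ e * star (op y) = star (op y) * e := by
      intro y hy
      induction hy using StarAlgebra.adjoin_induction with
      | mem z hz =>
        rw [Set.mem_singleton_iff] at hz
        subst hz
        exact ⟨he1.symm, he2.symm⟩
      | algebraMap r =>
        constructor
        · show e * (algebraMap ℂ (H →L[ℂ] H) r) = (algebraMap ℂ (H →L[ℂ] H) r) * e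
          exact (Algebra.commutes r e).symm
        · show e * star (algebraMap ℂ (H →L[ℂ] H) r) = star (algebraMap ℂ (H →L[ℂ] H) r) * e
          rw [← algebraMap_star_comm]
          exact (Algebra.commutes _ e).symm
      | add a b _ _ ha hb =>
        constructor
        · show e * (op a + op b) = (op a + op b) * e
          rw [mul_add, add_mul, ha.1, hb.1]
        · show e * star (op a + op b) = star (op a + op b) * e
          rw [star_add, mul_add, add_mul, ha.2, hb.2]
      | mul a b _ _ ha hb =>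
        constructor
        · show e * (op a * op b) = (op a * op b) * e
          rw [← mul_assoc, ha.1, mul_assoc, hb.1, mul_assoc]
        · show e * star (op a * op b) = star (op a * op b) * e
          rw [star_mul, ← mul_assoc, hb.2, mul_assoc, ha.2, mul_assoc]
      | star a _ ha =>
        constructor
        · exact ha.2
        · show e * star (star (op a)) = star (star (op a)) * e
          rw [star_star]
          exact ha.1
    have hcomm : ∀ y ∈ StarAlgebra.adjoin ℂ ({T} : Set (Elt M)), e * op y = op y * e :=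
      fun y hy => (hcomm2 y hy).1
    -- approximating sequence
    have hex : ∀ n : ℕ, ∃ y ∈ (StarAlgebra.adjoin ℂ ({T} : Set (Elt M)) : Set (Elt M)),
        n2 t ((⟨x, hx⟩ : Elt M) - y) < 1 / ((n : ℝ) + 1) := fun n => hT _ _ (by positivity)
    choose y hy hyn using hex
    have hlim0 : Tendsto (fun n : ℕ => 1 / ((n : ℝ) + 1)) atTop (𝓝 0) :=
      tendsto_one_div_add_atTop_nhds_zero_nat
    have hn2 : Tendsto (fun n => n2 t ((⟨x, hx⟩ : Elt M) - y n)) atTop (𝓝 0) :=
      squeeze_zero (fun n => n2_nonneg _ _) (fun n => (hyn n).le) hlim0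
    have hn2s : Tendsto (fun n => n2 t (star ((⟨x, hx⟩ : Elt M) - y n))) atTop (𝓝 0) := by
      refine hn2.congr (fun n => ?_)
      rw [hTW.n2_star]
    -- strong convergence on the vectors `m ξ k`
    have key : ∀ (z : ℕ → Elt M), Tendsto (fun n => n2 t (z n)) atTop (𝓝 0) →
        ∀ m ∈ M.commutant, ∀ k, Tendsto (fun n => op (z n) (m (ξ k))) atTop (𝓝 0) := by
      intro z hz m hm k
      have h1 : ∀ n, op (z n) (m (ξ k)) = m (op (z n) (ξ k)) := by
        intro n
        rw [VonNeumannAlgebra.mem_commutant_iff] at hm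
        have := hm (op (z n)) (z n).2
        exact congrArg (fun S : H →L[ℂ] H => S (ξ k)) this
      have h2 : Tendsto (fun n => op (z n) (ξ k)) atTop (𝓝 0) := by
        rw [tendsto_zero_iff_norm_tendsto_zero]
        exact squeeze_zero (fun n => norm_nonneg _) (fun n => vec_le M t ξ hξ ht (z n) k) hz
      have h3 : Tendsto (fun n => m (op (z n) (ξ k))) atTop (𝓝 (m 0)) :=
        (m.continuous.tendsto 0).comp h2
      rw [map_zero] at h3
      exact h3.congr (fun n => (h1 n).symm)
    have hS : ∀ v ∈ {v : H | ∃ m ∈ M.commutant, ∃ k, v = m (ξ k)},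
        ∀ w ∈ {v : H | ∃ m ∈ M.commutant, ∃ k, v = m (ξ k)},
        ⟪(x * e - e * x) v, w⟫_ℂ = 0 := by
      rintro _ ⟨m, hm, k, rfl⟩ _ ⟨m', hm', k', rfl⟩
      have a1 := key _ hn2 m hm k
      have a2 := key _ hn2s m' hm' k'
      -- ⟪(y n * e - e * y n) v, w⟫ = 0
      have b1 : ∀ n, ⟪(x * e - e * x) (m (ξ k)), m' (ξ k')⟫_ℂ =
          ⟪e (m (ξ k)), op (star ((⟨x, hx⟩ : Elt M) - y n)) (m' (ξ k'))⟫_ℂ -
          ⟪e (op ((⟨x, hx⟩ : Elt M) - y n) (m (ξ k))), m' (ξ k')⟫_ℂ := by
        intro n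
        have c1 : (x * e - e * x) = (x - op (y n)) * e - e * (x - op (y n)) := by
          rw [sub_mul, mul_sub, ← hcomm (y n) (hy n)]
          abel
        rw [c1]
        show ⟪(x - op (y n)) (e (m (ξ k))) - e ((x - op (y n)) (m (ξ k))), m' (ξ k')⟫_ℂ = _
        rw [inner_sub_left]
        congr 1
        show _ = ⟪e (m (ξ k)), (star (x - op (y n))) (m' (ξ k'))⟫_ℂ
        rw [ContinuousLinearMap.star_eq_adjoint, ContinuousLinearMap.adjoint_inner_right]
      have l1 : Tendsto (fun n => ⟪e (m (ξ k)),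
          op (star ((⟨x, hx⟩ : Elt M) - y n)) (m' (ξ k'))⟫_ℂ) atTop (𝓝 0) := by
        have := (tendsto_const_nhds (x := e (m (ξ k))) (f := (atTop : Filter ℕ))).inner (𝕜 := ℂ) a2
        rwa [inner_zero_right] at this
      have l2 : Tendsto (fun n => ⟪e (op ((⟨x, hx⟩ : Elt M) - y n) (m (ξ k))),
          m' (ξ k')⟫_ℂ) atTop (𝓝 0) := by
        have h3 : Tendsto (fun n => e (op ((⟨x, hx⟩ : Elt M) - y n) (m (ξ k)))) atTop
            (𝓝 (e 0)) := (e.continuous.tendsto 0).comp a1
        rw [map_zero] at h3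
        have := h3.inner (𝕜 := ℂ)
          (tendsto_const_nhds (x := m' (ξ k')) (f := (atTop : Filter ℕ)))
        rwa [inner_zero_left] at this
      have l3 := l1.sub l2
      rw [sub_zero] at l3
      refine tendsto_nhds_unique (f := fun _ : ℕ => ⟪(x * e - e * x) (m (ξ k)), m' (ξ k')⟫_ℂ)
        (l := atTop) tendsto_const_nhds ?_
      exact l3.congr (fun n => (b1 n).symm)
    -- density
    have hv : ∀ v : H, ∀ w ∈ {v : H | ∃ m ∈ M.commutant, ∃ k, v = m (ξ k)},
        ⟪(x * e - e * x) v, w⟫_ℂ = 0 := by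
      intro v w hw
      have hcl : v ∈ (Submodule.span ℂ
        {v : H | ∃ m ∈ M.commutant, ∃ k, v = m (ξ k)}).topologicalClosure := by
        rw [hdense]; trivial
      let f : H →L[ℂ] ℂ := (innerSL ℂ w).comp (x * e - e * x)
      have hf : ∀ v', f v' = 0 ↔ ⟪(x * e - e * x) v', w⟫_ℂ = 0 := by
        intro v'
        show ⟪w, (x * e - e * x) v'⟫_ℂ = 0 ↔ _
        exact inner_eq_zero_symm
      have h1 : Submodule.span ℂ {v : H | ∃ m ∈ M.commutant, ∃ k, v = m (ξ k)} ≤
          LinearMap.ker (f : H →ₗ[ℂ] ℂ) := by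
        rw [Submodule.span_le]
        intro v' hv'
        exact (hf v').2 (hS v' hv' w hw)
      have h2 : IsClosed ((LinearMap.ker (f : H →ₗ[ℂ] ℂ) : Submodule ℂ H) : Set H) :=
        ContinuousLinearMap.isClosed_ker f
      exact (hf v).1 (Submodule.topologicalClosure_minimal _ h1 h2 hcl)
    have hz : x * e - e * x = 0 := by
      refine ContinuousLinearMap.ext (fun v => ?_)
      show (x * e - e * x) v = 0
      refine ext_inner_right ℂ (fun w => ?_)
      rw [inner_zero_left]
      have hcl : w ∈ (Submodule.span ℂ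
        {v : H | ∃ m ∈ M.commutant, ∃ k, v = m (ξ k)}).topologicalClosure := by
        rw [hdense]; trivial
      let f : H →L[ℂ] ℂ := innerSL ℂ ((x * e - e * x) v)
      have h1 : Submodule.span ℂ {v : H | ∃ m ∈ M.commutant, ∃ k, v = m (ξ k)} ≤
          LinearMap.ker (f : H →ₗ[ℂ] ℂ) := by
        rw [Submodule.span_le]
        intro w' hw'
        exact hv v w' hw'
      have h2 : IsClosed ((LinearMap.ker (f : H →ₗ[ℂ] ℂ) : Submodule ℂ H) : Set H) :=
        ContinuousLinearMap.isClosed_ker f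
      exact Submodule.topologicalClosure_minimal _ h1 h2 hcl
    exact (sub_eq_zero.1 hz).symm
  · intro x hx
    have h1 : ({op T, star (op T)} : Set (H →L[ℂ] H)) ⊆ (M : Set (H →L[ℂ] H)) := by
      intro z hz
      rcases hz with rfl | hz
      · exact T.2
      · rw [Set.mem_singleton_iff] at hz
        subst hz
        exact star_mem T.2
    have h2 := Set.centralizer_subset (Set.centralizer_subset h1) hx
    rwa [VonNeumannAlgebra.centralizer_centralizer] at h2

end Pool.Agent.H735G
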