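import Mathlib
import Pool.Agent.H735G.Trans
import Pool.Agent.H459R3.DPV05
import Pool.Agent.H778R2.DP.Span
import Pool.Agent.H85R2.Kad4.Polar
import Pool.Agent.H666R2.DP.Z1
import Pool.Agent.H445R2.Kad4.Range

/-! ROOM GEN: from the abstract II_1 statement to von Neumann algebras, end. -/

set_option autoImplicit false
set_option linter.unusedSectionVars false

open scoped ComplexOrder Topology InnerProductSpace
open Filter

noncomputable section

namespace Pool.Agent.H735G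

open Pool.Agent.H467F H710R2.DP H759R2.Kad

variable {H : Type} [NormedAddCommGroup H] [InnerProductSpace ℂ H] [CompleteSpace H]

theorem noab (M : VonNeumannAlgebra H) (hM : NoAb M 1) : NoAbA (Elt M) := by
  intro e he hee hne
  by_contra hcon
  push Not at hcon
  apply hne
  have hpr : IsPr (op e) := ⟨congrArg Subtype.val he, congrArg Subtype.val hee⟩
  have hab : IsAb M (op e) := by
    refine dp_Vab dp_Vsupp prove5_polar (dp_bin prove5_range) H M (op e) e.2 hpr ?_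
    intro v hv hpi h1 h2 h3
    let v' : Elt M := ⟨v, hv⟩
    have e1 : e * v' * e = v' := by
      apply Subtype.ext
      show op e * v * op e = v
      rw [h1, h2]
    have e2 : e * star v' * e = star v' := by
      have := congrArg star e1
      rwa [star_mul, star_mul, he, ← mul_assoc] at this
    have h4 := hcon v' (star v')
    rw [e1, e2] at h4
    have h5 : v * star v = star v * v := congrArg Subtype.val h4
    have h6 : v * star v * v = v := hpi
    calc v = v * star v * v := h6.symm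
      _ = star v * v * v := by rw [h5]
      _ = star v * (v * v) := by rw [mul_assoc]
      _ = 0 := by rw [h3, mul_zero]
  exact Subtype.ext (hM (op e) e.2 hpr (one_mul _) hab)

theorem sepT (M : VonNeumannAlgebra H) [TopologicalSpace.SeparableSpace H] (t : Elt M →ₗ[ℂ] ℂ)
    (hn : IsNormalPositive M (t : Elt M → ℂ)) : SepT t := by
  classical
  obtain ⟨ξ, hξ, ht⟩ := hn
  -- for each bound and each number of vectors a countable approximating set
  have h1 : ∀ R n : ℕ, ∃ D : Set (Elt M), D.Countable ∧ (∀ x ∈ D, ‖x‖ ≤ R) ∧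
      ∀ x : Elt M, ‖x‖ ≤ R → ∀ ε : ℝ, 0 < ε → ∃ y ∈ D, ∀ k < n, ‖op (x - y) (ξ k)‖ < ε := by
    intro R n
    let f : Elt M → (Fin n → H) := fun x k => op x (ξ k)
    let S : Set (Elt M) := {x | ‖x‖ ≤ R}
    have hsep : TopologicalSpace.IsSeparable (f '' S) := TopologicalSpace.IsSeparable.of_separableSpace _
    obtain ⟨C, hCs, hCc, hCd⟩ := hsep.exists_countable_dense_subset
    have hch : ∀ c : C, ∃ x ∈ S, f x = c := fun c => hCs c.2
    choose g hgS hg using hch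
    refine ⟨Set.range g, ?_, ?_, ?_⟩
    · haveI : Countable C := hCc.to_subtype
      exact Set.countable_range g
    · rintro _ ⟨c, rfl⟩
      exact hgS c
    · intro x hx ε hε
      have h2 : f x ∈ closure C := hCd ⟨x, hx, rfl⟩
      obtain ⟨c, hc, hd⟩ := Metric.mem_closure_iff.1 h2 ε hε
      refine ⟨g ⟨c, hc⟩, ⟨_, rfl⟩, ?_⟩
      intro k hk
      have h3 : dist (f x ⟨k, hk⟩) (c ⟨k, hk⟩) < ε :=
        lt_of_le_of_lt (dist_le_pi_dist (f x) c ⟨k, hk⟩) hd
      have h4 : f (g ⟨c, hc⟩) ⟨k, hk⟩ = c ⟨k, hk⟩ := by rw [hg]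
      rw [← h4, dist_eq_norm] at h3
      exact h3
  choose D hDc hDb hD using h1
  let D0 : Set (Elt M) := (⋃ R, ⋃ n, D R n) ∪ {0}
  have hD0 : D0.Countable :=
    (Set.countable_iUnion fun R => Set.countable_iUnion fun n => hDc R n).union
      (Set.countable_singleton 0)
  obtain ⟨s, hs⟩ := hD0.exists_eq_range ⟨0, Or.inr rfl⟩
  refine ⟨s, ?_⟩
  intro x ε hε
  obtain ⟨R, hR⟩ := exists_nat_ge ‖x‖
  -- tail
  have htail : Tendsto (fun n => ∑' k, ‖ξ (k + n)‖ ^ 2) atTop (𝓝 0) :=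
    tendsto_sum_nat_add (fun k => ‖ξ k‖ ^ 2)
  have hB : (0 : ℝ) < (2 * R + 1) ^ 2 := by positivity
  have hev := (htail.eventually (gt_mem_nhds (show (0 : ℝ) < ε ^ 2 / 4 / (2 * R + 1) ^ 2 by positivity)))
  obtain ⟨n, hn⟩ := hev.exists
  obtain ⟨y, hy, hyk⟩ := hD R n x hR (ε / 2 / (n + 1)) (by positivity)
  have hyD : y ∈ D0 := Or.inl (Set.mem_iUnion.2 ⟨R, Set.mem_iUnion.2 ⟨n, hy⟩⟩)
  rw [hs] at hyD
  obtain ⟨j, hj⟩ := hyD
  refine ⟨j, ?_⟩
  rw [hj]
  have h2 := n2_vec M t ξ hξ ht (x - y)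
  have hsum := twe_summable ξ hξ (op (x - y))
  have h3 : ∑' k, ‖op (x - y) (ξ k)‖ ^ 2 = ∑ k ∈ Finset.range n, ‖op (x - y) (ξ k)‖ ^ 2 +
      ∑' k, ‖op (x - y) (ξ (k + n))‖ ^ 2 := (hsum.sum_add_tsum_nat_add n).symm
  have hnorm : ‖op (x - y)‖ ≤ 2 * R := by
    have h4 : ‖x - y‖ ≤ ‖x‖ + ‖y‖ := norm_sub_le x y
    have h5 := hDb R n y hy
    have h6 : ‖op (x - y)‖ = ‖x - y‖ := rfl
    rw [h6]; linarith
  have h7 : ∑' k, ‖op (x - y) (ξ (k + n))‖ ^ 2 ≤ (2 * R) ^ 2 * ∑' k, ‖ξ (k + n)‖ ^ 2 := by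
    rw [← tsum_mul_left]
    refine Summable.tsum_le_tsum (fun k => ?_) ((summable_nat_add_iff n).2 hsum)
      (((summable_nat_add_iff n).2 hξ).mul_left _)
    rw [← mul_pow]
    refine pow_le_pow_left₀ (norm_nonneg _) ?_ 2
    exact ((op (x - y)).le_opNorm _).trans (mul_le_mul_of_nonneg_right hnorm (norm_nonneg _))
  have h8 : (2 * (R : ℝ)) ^ 2 * ∑' k, ‖ξ (k + n)‖ ^ 2 ≤ ε ^ 2 / 4 := by
    have h9 : ∑' k, ‖ξ (k + n)‖ ^ 2 < ε ^ 2 / 4 / (2 * R + 1) ^ 2 := hn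
    have h10 : (0 : ℝ) ≤ ∑' k, ‖ξ (k + n)‖ ^ 2 := tsum_nonneg fun k => by positivity
    rw [lt_div_iff₀ hB] at h9
    have h11 : (2 * (R : ℝ)) ^ 2 ≤ (2 * R + 1) ^ 2 := by
      have : (0 : ℝ) ≤ R := Nat.cast_nonneg R
      nlinarith
    nlinarith
  have h12 : ∑ k ∈ Finset.range n, ‖op (x - y) (ξ k)‖ ^ 2 ≤ ε ^ 2 / 4 := by
    have h13 : ∀ k ∈ Finset.range n, ‖op (x - y) (ξ k)‖ ^ 2 ≤ (ε / 2 / (n + 1)) ^ 2 := by
      intro k hk
      exact pow_le_pow_left₀ (norm_nonneg _) (hyk k (Finset.mem_range.1 hk)).le 2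
    refine (Finset.sum_le_sum h13).trans ?_
    rw [Finset.sum_const, Finset.card_range, nsmul_eq_mul]
    have hn0 : (0 : ℝ) ≤ n := Nat.cast_nonneg n
    have h14 : (n : ℝ) * (ε / 2 / (n + 1)) ^ 2 = (ε ^ 2 / 4) * (n / (n + 1) ^ 2) := by
      field_simp; ring
    rw [h14]
    have h15 : (n : ℝ) / (n + 1) ^ 2 ≤ 1 := by
      rw [div_le_one (by positivity)]
      nlinarith
    have h16 : 0 ≤ ε ^ 2 / 4 := by positivity
    nlinarith
  have h17 : n2 t (x - y) ^ 2 < ε ^ 2 := by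
    rw [h2, h3]
    have : (0 : ℝ) < ε ^ 2 := by positivity
    linarith
  exact lt_of_pow_lt_pow_left₀ 2 hε.le h17

/-- TransferThm. -/
theorem transfer : TransferThm := by
  intro hA H _ _ _ _ M hNo ht
  obtain ⟨t0, htr, hno⟩ := ht
  obtain ⟨t, ht⟩ := exists_linear M t0 hno
  have e0 : (t : Elt M → ℂ) = t0 := funext ht
  rw [← e0] at htr hno
  obtain ⟨T, hT⟩ := hA (Elt M) t (tw_elt M t hno htr) (sepT M t hno) (noab M hNo)
  exact ⟨op T, bicomm_of_gen M t htr hno T hT⟩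

end Pool.Agent.H735G
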