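import Mathlib
import Pool.Agent.H735G.Defs2
import Pool.Agent.H735G.Trans2
import Pool.Agent.Helper467.FP.P_exists_closure

/-! ROOM GEN: assembly. -/

set_option autoImplicit false

open scoped ComplexOrder Topology
open Filter

noncomputable section

namespace Pool.Agent.H735G

open Pool.Agent.H467F

/-- If `N` is generated by `h₁, h₂` and `A` by `N` and `u` then `A` is generated by four
self-adjoint elements. -/
theorem four_gen {A : Type} [CStarAlgebra A] {τ : A →ₗ[ℂ] ℂ} (h : TW τ) (N : StarSubalgebra ℂ A)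
    (k₁ k₂ : A) (e1 : star k₁ = k₁) (e2 : star k₂ = k₂)
    (hg : ∀ x ∈ N, x ∈ Cl τ (StarAlgebra.adjoin ℂ {k₁, k₂} : Set A)) (u : A)
    (hu : GenT τ ((N : Set A) ∪ {u})) :
    ∃ y : Fin 4 → A, (∀ i, star (y i) = y i) ∧ GenT τ (Set.range y) := by
  let r : A := u + star u
  let s : A := Complex.I • (u - star u)
  have hr : star r = r := by
    simp only [r, star_add, star_star]
    exact add_comm _ _
  have hs : star s = s := by
    simp only [s, star_smul, star_sub, star_star, Complex.star_def, Complex.conj_I]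
    rw [neg_smul, ← smul_neg, neg_sub]
  refine ⟨![k₁, k₂, r, s], ?_, ?_⟩
  · intro i
    fin_cases i
    · exact e1
    · exact e2
    · exact hr
    · exact hs
  · set Y : Set A := Set.range ![k₁, k₂, r, s] with hY
    obtain ⟨S, hS, hSW, hle⟩ := exists_closure h (StarAlgebra.adjoin ℂ Y)
    have hmem : ∀ i, (![k₁, k₂, r, s] : Fin 4 → A) i ∈ StarAlgebra.adjoin ℂ Y := fun i =>
      StarAlgebra.subset_adjoin ℂ _ ⟨i, rfl⟩
    have hk1 : k₁ ∈ StarAlgebra.adjoin ℂ Y := hmem 0
    have hk2 : k₂ ∈ StarAlgebra.adjoin ℂ Y := hmem 1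
    have hrr : r ∈ StarAlgebra.adjoin ℂ Y := hmem 2
    have hss : s ∈ StarAlgebra.adjoin ℂ Y := hmem 3
    have hu1 : u ∈ StarAlgebra.adjoin ℂ Y := by
      have : u = (1 / 2 : ℂ) • r - (Complex.I / 2) • s := by
        simp only [r, s, smul_add, smul_sub, smul_smul]
        have h1 : Complex.I / 2 * Complex.I = -(1 / 2) := by
          rw [div_mul_eq_mul_div, Complex.I_mul_I]; ring
        rw [h1]
        module
      rw [this]
      exact sub_mem ((StarAlgebra.adjoin ℂ Y).smul_mem hrr _) ((StarAlgebra.adjoin ℂ Y).smul_mem hss _)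
    have hNS : ∀ x ∈ N, x ∈ S := by
      intro x hx
      have h1 := hg x hx
      have h2 : (StarAlgebra.adjoin ℂ {k₁, k₂} : StarSubalgebra ℂ A) ≤ StarAlgebra.adjoin ℂ Y := by
        apply StarAlgebra.adjoin_le
        intro z hz
        rcases hz with rfl | hz
        · exact hk1
        · rw [Set.mem_singleton_iff] at hz; subst hz; exact hk2
      have h3 : x ∈ Cl τ (StarAlgebra.adjoin ℂ Y : Set A) := by
        intro ε hε
        obtain ⟨y, hy, hy2⟩ := h1 ε hε
        exact ⟨y, h2 hy, hy2⟩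
      rw [← hS] at h3
      exact h3
    have hle2 : StarAlgebra.adjoin ℂ ((N : Set A) ∪ {u}) ≤ S := by
      apply StarAlgebra.adjoin_le
      rintro z (hz | hz)
      · exact hNS z hz
      · rw [Set.mem_singleton_iff] at hz; subst hz; exact hle hu1
    intro x
    have h1 := hu x
    have h2 : x ∈ Cl τ (S : Set A) := by
      intro ε hε
      obtain ⟨y, hy, hy2⟩ := h1 ε hε
      exact ⟨y, hle2 hy, hy2⟩
    have h3 : x ∈ S := hSW x h2
    have h4 : x ∈ (S : Set A) := h3
    rw [hS] at h4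
    exact h4

/-- Assembly of the II_1 part. -/
theorem ii1a (hF : FlowThm) (h2 : FreenessThm2) (h3 : DensityThm2) (h4 : OneGenThm) : II1A := by
  refine h4 ?_
  intro A _ τ hτ hS hN
  obtain ⟨N, k₁, k₂, e1, e2, m1, m2, hg, hfs⟩ := h2 A τ hτ hS hN
  obtain ⟨u, hu⟩ := h3 hF A τ hτ hS N hfs
  exact four_gen hτ N k₁ k₂ e1 e2 hg u hu

/-- Assembly. -/
theorem assemble (hF : FlowThm) (h2 : FreenessThm2) (h3 : DensityThm2) (h4 : OneGenThm)
    (h5 : ReductionThm) : S04147Stmt :=
  h5 (transfer (ii1a hF h2 h3 h4))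

end Pool.Agent.H735G
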