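import Mathlib
import Pool.Agent.H735G.Asm
import Pool.Agent.H770R2.FA.Final
import Pool.Agent.H569G.Baire2
import Pool.Agent.H594R3.GEN.OneGen

/-! ROOM GEN: assembly of the finished blocks (flow, density, one generator). -/

set_option autoImplicit false

namespace Pool.Agent.H735G

/-- The II_1 part from freeness alone. -/
theorem ii1a_of (h2 : FreenessThm2) : II1A :=
  ii1a Pool.Agent.H770R2.FA.flowThm h2 Pool.Agent.H569G.D.densityThm2
    Pool.Agent.H594R3.GEN.oneGen

/-- The frozen statement from freeness and reduction. -/
theorem main_of (h2 : FreenessThm2) (h5 : ReductionThm) : S04147Stmt :=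
  h5 (transfer (ii1a_of h2))

end Pool.Agent.H735G
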