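import Mathlib
import Pool.Agent.H735G.Defs
import Pool.Agent.Helper278.GroupMain

/-! ROOM GEN: the II_1 theorem for von Neumann algebras with a faithful normal tracial state. -/

set_option autoImplicit false
set_option linter.unusedSectionVars false

open scoped ComplexOrder Topology InnerProductSpace
open Filter

noncomputable section

namespace Pool.Agent.H735G

open Pool.Agent.H467F H710R2.DP H759R2.Kad

variable {H : Type} [NormedAddCommGroup H] [InnerProductSpace ℂ H] [CompleteSpace H]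

/-- No nonzero projection with commutative corner implies `NoAb`. -/
theorem noAb_of_corner (M : VonNeumannAlgebra H)
    (h : ∀ e ∈ M, star e = e → e * e = e → e ≠ 0 → ∃ x ∈ M, ∃ y ∈ M,
      (e * x * e) * (e * y * e) ≠ (e * y * e) * (e * x * e)) : NoAb M 1 := by
  intro e he hpr _ hab
  by_contra hne
  obtain ⟨x, hx, y, hy, hxy⟩ := h e he hpr.1 hpr.2 hne
  apply hxy
  have hee : e * e = e := hpr.2
  rw [← sub_eq_zero, ← norm_le_zero_iff]
  apply le_of_forall_pos_le_add
  intro ε hε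
  rw [zero_add]
  set X := e * x * e with hX
  set Y := e * y * e with hY
  obtain ⟨z, hz, hzx⟩ := hab x hx (ε / (2 * (‖Y‖ + 1))) (by positivity)
  have h1 : (z * e) * Y = Y * (z * e) := by
    have h2 : z * Y = Y * z := hz.2 Y (mul_mem (mul_mem he hy) he)
    have h3 : e * Y = Y := by rw [hY, ← mul_assoc, ← mul_assoc, hee]
    have h4 : Y * e = Y := by rw [hY, mul_assoc, hee]
    calc (z * e) * Y = z * (e * Y) := by rw [mul_assoc]
      _ = z * Y := by rw [h3]
      _ = Y * z := h2
      _ = (Y * e) * z := by rw [h4]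
      _ = Y * (e * z) := by rw [mul_assoc]
      _ = Y * (z * e) := by rw [hz.2 e he]
  have h5 : X * Y - Y * X = (X - z * e) * Y - Y * (X - z * e) := by
    rw [sub_mul, mul_sub, h1]; abel
  rw [h5]
  have h6 : ‖(X - z * e) * Y - Y * (X - z * e)‖ ≤ 2 * (‖X - z * e‖ * ‖Y‖) := by
    refine (norm_sub_le _ _).trans ?_
    have a1 := norm_mul_le (X - z * e) Y
    have a2 := norm_mul_le Y (X - z * e)
    nlinarith
  refine h6.trans ?_
  have h7 : ‖X - z * e‖ * ‖Y‖ ≤ ε / (2 * (‖Y‖ + 1)) * (‖Y‖ + 1) :=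
    mul_le_mul hzx (by linarith) (norm_nonneg _) (by positivity)
  have h8 : ε / (2 * (‖Y‖ + 1)) * (‖Y‖ + 1) = ε / 2 := by field_simp
  linarith

/-- A `II_1` factor has no abelian projection. -/
theorem noAb_of_factor (M : VonNeumannAlgebra H) (t : Elt M → ℂ) (hM : IsIIOneFactor M t) :
    NoAb M 1 := by
  intro e he hpr _ hab
  by_contra hne
  have htr : Pool.Agent.Helper278.IsFaithfulTrace t :=
    ⟨hM.trace.one, hM.trace.tracial, hM.trace.faithful⟩
  have hd : Pool.Agent.Helper278.IsDiffuse M :=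
    Pool.Agent.Helper278.diffuse_of_factor (Pool.Agent.Helper278.mkState M t hM.normal htr)
      hM.center hM.infinite
  obtain ⟨x, hx, hxc⟩ := hd e he hpr.2 hpr.1 hne
  have hcl : IsClosed ((Submodule.span ℂ {e} : Submodule ℂ (H →L[ℂ] H)) : Set (H →L[ℂ] H)) :=
    Submodule.closed_of_finiteDimensional _
  have hmem : e * x * e ∈ closure ((Submodule.span ℂ {e} : Submodule ℂ (H →L[ℂ] H)) :
      Set (H →L[ℂ] H)) := by
    rw [Metric.mem_closure_iff]
    intro ε hε
    obtain ⟨z, hz, hzx⟩ := hab x hx (ε / 2) (by positivity)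
    obtain ⟨c, hc⟩ := hM.center z hz.1 hz.2
    refine ⟨c • e, Submodule.smul_mem _ _ (Submodule.mem_span_singleton_self e), ?_⟩
    rw [hc, smul_mul_assoc, one_mul] at hzx
    rw [dist_eq_norm]
    linarith
  rw [hcl.closure_eq] at hmem
  obtain ⟨c, hc⟩ := Submodule.mem_span_singleton.1 hmem
  exact hxc c hc.symm

/-- The II_1 theorem. -/
theorem planB (hZ : II1Z) (H : Type) [NormedAddCommGroup H] [InnerProductSpace ℂ H]
    [CompleteSpace H] [TopologicalSpace.SeparableSpace H] (M : VonNeumannAlgebra H)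
    (t : Elt M → ℂ) (ht : IsFaithfulTrace t) (hn : IsNormalPositive M t)
    (h : (∀ e ∈ M, star e = e → e * e = e → e ≠ 0 → ∃ x ∈ M, ∃ y ∈ M,
      (e * x * e) * (e * y * e) ≠ (e * y * e) * (e * x * e)) ∨
      ((∀ z ∈ M, (∀ x ∈ M, z * x = x * z) → ∃ c : ℂ, z = c • (1 : H →L[ℂ] H)) ∧
        ¬ FiniteDimensional ℂ (Elt M))) :
    ∃ T : H →L[ℂ] H, (M : Set (H →L[ℂ] H)) =
      Set.centralizer (Set.centralizer ({T, star T} : Set (H →L[ℂ] H))) := by
  refine hZ H M ?_ ⟨t, ht, hn⟩
  rcases h with h | h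
  · exact noAb_of_corner M h
  · exact noAb_of_factor M t ⟨h.1, h.2, ht, hn⟩

end Pool.Agent.H735G
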